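import Pool.Agent.helper58.CRO.SpecB

/-!
# MP_5bf3c3_gt, row cro:NRG (conservation of energy)
-/

set_option autoImplicit false

open scoped Manifold ContDiff Topology ENNReal
open MeasureTheory Set

namespace Pool.Agent.CRO

theorem NRG_zero {n : ℕ} (H : PS n → ℝ) (z : PS n) : fderiv ℝ H z (hvf H z) = 0 := by
  have h1 : ∀ a b : En n, fderiv ℝ H z (a, b) =
      (fderiv ℝ H z).comp (ContinuousLinearMap.inl ℝ (En n) (En n)) a +
      (fderiv ℝ H z).comp (ContinuousLinearMap.inr ℝ (En n) (En n)) b := by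
    intro a b
    rw [ContinuousLinearMap.comp_apply, ContinuousLinearMap.comp_apply, ← map_add,
      ContinuousLinearMap.inl_apply, ContinuousLinearMap.inr_apply, Prod.mk_add_mk, add_zero, zero_add]
  unfold hvf
  rw [h1]
  set A := (fderiv ℝ H z).comp (ContinuousLinearMap.inl ℝ (En n) (En n)) with hA
  set B := (fderiv ℝ H z).comp (ContinuousLinearMap.inr ℝ (En n) (En n)) with hB
  have hA' : ∀ v, A v = inner ℝ ((InnerProductSpace.toDual ℝ (En n)).symm A) v := by
    intro v
    rw [InnerProductSpace.toDual_symm_apply]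
  have hB' : ∀ v, B v = inner ℝ ((InnerProductSpace.toDual ℝ (En n)).symm B) v := by
    intro v
    rw [InnerProductSpace.toDual_symm_apply]
  rw [map_neg, hA', hB' ((InnerProductSpace.toDual ℝ (En n)).symm A), real_inner_comm]
  ring

theorem NRG : NRG_stmt := by
  intro n r0 r1 𝒢 H Φ hF z u hz hs
  have hD : ∀ s, HasDerivAt (fun s => H (Φ s z)) 0 s := by
    intro s
    have h1 : HasFDerivAt H (fderiv ℝ H (Φ s z)) (Φ s z) :=
      (hF.smoothH.differentiable (by simp) _).hasFDerivAt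
    have h2 := h1.comp_hasDerivAt s (hF.ode z s)
    rw [NRG_zero] at h2
    exact h2
  have hc : ∀ s, H (Φ s z) = H z := by
    intro s
    have h1 := is_const_of_deriv_eq_zero (f := fun s => H (Φ s z))
      (fun s => (hD s).differentiableAt) (fun s => (hD s).deriv) s 0
    have h2 : H (Φ s z) = H (Φ 0 z) := h1
    rw [h2, hF.zero]
  have h0 : (0 : ℝ) ∈ uIcc 0 u := left_mem_uIcc
  have hz1 : ‖z.1‖ < r1 := by
    have := hs 0 h0
    rwa [hF.zero] at this
  have hzH : H z = nrm2 𝒢 z / 2 := hF.eqH z hz1 (by linarith)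
  have key : ∀ s ∈ uIcc 0 u, nrm2 𝒢 (Φ s z) < 2 → nrm2 𝒢 (Φ s z) = nrm2 𝒢 z := by
    intro s hsu h2
    have h3 : H (Φ s z) = nrm2 𝒢 (Φ s z) / 2 := hF.eqH _ (hs s hsu) h2
    have h4 := hc s
    linarith
  have hcont : ContinuousOn (fun s => nrm2 𝒢 (Φ s z)) (uIcc 0 u) := by
    have hΦ : Continuous fun s => Φ s z := by
      rw [continuous_iff_continuousAt]
      intro s
      exact (hF.ode z s).continuousAt
    have h1 : ContinuousOn (fun s => 𝒢.G (Φ s z).1) (uIcc 0 u) := by
      apply 𝒢.smooth.continuousOn.comp (continuous_fst.comp hΦ).continuousOn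
      intro s hsu
      rw [Function.comp_apply, mem_ball_zero_iff]
      exact (hs s hsu).trans hF.r1lt
    have h2 : ContinuousOn (fun s => 𝒢.G (Φ s z).1 (Φ s z).2) (uIcc 0 u) :=
      h1.clm_apply (continuous_snd.comp hΦ).continuousOn
    exact h2.inner (continuous_snd.comp hΦ).continuousOn
  apply key u right_mem_uIcc
  by_contra hcon
  rw [not_lt] at hcon
  have h5 := intermediate_value_uIcc hcont
  have h6 : (3 / 2 : ℝ) ∈ uIcc (nrm2 𝒢 (Φ 0 z)) (nrm2 𝒢 (Φ u z)) := by
    rw [hF.zero, mem_uIcc]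
    left
    constructor <;> linarith
  obtain ⟨s, hs1, hs2⟩ := h5 h6
  have hs3 : nrm2 𝒢 (Φ s z) = 3 / 2 := hs2
  have h7 := key s hs1 (by linarith)
  linarith

end Pool.Agent.CRO
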